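import Pool.Agent.W500.FL.Stm

set_option autoImplicit false

namespace Pool.Agent.W775.FL.FR2

open Polynomial Pool.Agent.W500.FL

theorem root_exists {K : Type} [Field K] [Fintype K] (p : ℕ) [Fact p.Prime] [CharP K p]
    (ρ : K[X]) (hm : ρ.Monic) (hs : Squarefree ρ) (r : K[X]) : ∃ z : K[X], ρ ∣ z ^ p - r := by
  have hp : p ≠ 0 := (Fact.out : p.Prime).ne_zero
  have := hm.finite_adjoinRoot
  have : Finite (AdjoinRoot ρ) := Module.finite_of_finite K
  have hinj : Function.Injective (fun x : AdjoinRoot ρ => x ^ p) := by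
    intro x y hxy
    obtain ⟨a, rfl⟩ := AdjoinRoot.mk_surjective x
    obtain ⟨b, rfl⟩ := AdjoinRoot.mk_surjective y
    simp only [← map_pow] at hxy
    rw [AdjoinRoot.mk_eq_mk] at hxy ⊢
    rw [← sub_pow_char] at hxy
    exact (hs.dvd_pow_iff_dvd hp).1 hxy
  obtain ⟨x, hx⟩ := (Finite.injective_iff_surjective.1 hinj) (AdjoinRoot.mk ρ r)
  obtain ⟨z, rfl⟩ := AdjoinRoot.mk_surjective x
  refine ⟨z, ?_⟩
  simp only [← map_pow] at hx
  exact AdjoinRoot.mk_eq_mk.1 hx

theorem main : S_FR := by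
  intro K _ _ p _ _ V H ρ R hρ hcop N
  classical
  have hp : p ≠ 0 := (Fact.out : p.Prime).ne_zero
  have step1 : ∀ h : K[X], ∃ y : K[X], h ∈ H → ρ h ∣ V ^ p * y ^ p - R h := by
    intro h
    by_cases hh : h ∈ H
    · obtain ⟨z, hz⟩ := root_exists p (ρ h) (hρ h hh).1 (hρ h hh).2.1 (R h)
      obtain ⟨a, b, hab⟩ := (hρ h hh).2.2
      -- a * ρ h + b * V = 1
      refine ⟨b * z, fun _ => ?_⟩
      have h1 : ρ h ∣ V * (b * z) - z := ⟨- (a * z), by linear_combination z * hab⟩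
      have h2 : ρ h ∣ (V * (b * z)) ^ p - z ^ p := h1.trans (sub_dvd_pow_sub_pow _ _ _)
      have h3 := dvd_add h2 hz
      rw [← mul_pow]
      convert h3 using 1
      ring
    · exact ⟨0, fun h' => absurd h' hh⟩
  choose y hy using step1
  have hpw : Pairwise (Function.onFun IsCoprime
      (fun h : {x // x ∈ H} => Ideal.span ({ρ h.1} : Set K[X]))) := by
    intro h k hne
    rw [Function.onFun, Ideal.isCoprime_span_singleton_iff]
    exact hcop h.1 h.2 k.1 k.2 (fun e => hne (Subtype.ext e))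
  obtain ⟨Y0, hY0⟩ := Ideal.exists_forall_sub_mem_ideal hpw (fun h => y h.1)
  set M : K[X] := ∏ h ∈ H, ρ h with hM
  have hMm : M.Monic := monic_prod_of_monic _ _ (fun h hh => (hρ h hh).1)
  set D := M.natDegree with hD
  -- j with 4 ∣ D + j, j large
  obtain ⟨j, hj1, hj2⟩ : ∃ j : ℕ, 4 ∣ D + j ∧ N + Y0.natDegree + 1 ≤ j :=
    ⟨3 * D + 4 * (N + Y0.natDegree + 1), by omega, by omega⟩
  have hdeg : (M * X ^ j).natDegree = D + j := by
    rw [hMm.natDegree_mul (monic_X_pow j), natDegree_X_pow]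
  have hlt : Y0.natDegree < (M * X ^ j).natDegree := by rw [hdeg]; omega
  have hlt' : Y0.degree < (M * X ^ j).degree := degree_lt_degree hlt
  have hmon : (Y0 + M * X ^ j).Monic := (hMm.mul (monic_X_pow j)).add_of_right hlt'
  have hnd : (Y0 + M * X ^ j).natDegree = D + j := by
    rw [natDegree_add_eq_right_of_natDegree_lt hlt, hdeg]
  refine ⟨Y0 + M * X ^ j, hmon, by rw [hnd]; exact hj1, by rw [hnd]; omega, ?_⟩
  intro h hh
  have h1 : ρ h ∣ Y0 - y h := Ideal.mem_span_singleton.1 (hY0 ⟨h, hh⟩)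
  have h2 : ρ h ∣ M := Finset.dvd_prod_of_mem _ hh
  have h3 : ρ h ∣ (Y0 + M * X ^ j) - y h := by
    have := dvd_add h1 (h2.mul_right (X ^ j))
    convert this using 1
    ring
  have h4 : ρ h ∣ (Y0 + M * X ^ j) ^ p - (y h) ^ p := h3.trans (sub_dvd_pow_sub_pow _ _ _)
  have h5 := dvd_add (h4.mul_left (V ^ p)) (hy h hh)
  convert h5 using 1
  ring

end Pool.Agent.W775.FL.FR2
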